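import Mathlib
import Pool.Agent.Work.MP_dc5c84_pr.Main

/-!
# Largest gap in processes mimicking the sine process

`lam = inf {ℓ : some u in 𝒯_1 has a.s. all consecutive gaps ≤ ℓ}` equals `+∞`: no uniformly
locally bounded-moment point process which mimics the sine process at bandwidth `1` has almost
surely bounded gaps.

Idea of the proof.  For band-limited `0 ≤ h ≤ 1` the functional `E ∏ (1 - h(u_j))` is the same
for `u` and for the (formal) determinantal process on the half-integer lattice.  Choosing `h = 1`
on a long block of lattice points and comparing with `h + (1-h) θ`, where `θ` is a band-limited
bump, forces a point-free interval of any prescribed length with positive probability.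
-/

namespace Pool.Agent.Results.MP_dc5c84_pr.GapConstant

open Pool.Agent.Work.MP_dc5c84_pr

theorem result.{v} : lam.{v} = ⊤ := lam_eq_top

end Pool.Agent.Results.MP_dc5c84_pr.GapConstant
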